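import Mathlib

set_option autoImplicit false
open MeasureTheory Matrix Filter Topology

namespace Pool.Agent.Helper540_Overlap

attribute [local instance] Matrix.linftyOpNormedRing Matrix.linftyOpNormedAlgebra in
/-- a complex matrix whose spectrum lies in the open unit disk has powers tending to zero -/
lemma pow_small_complex {d : ℕ} [Nonempty (Fin d)] (N : Matrix (Fin d) (Fin d) ℂ)
    (hN : ∀ μ ∈ spectrum ℂ N, ‖μ‖ < 1) :
    Tendsto (fun k : ℕ => ‖N ^ k‖) atTop (𝓝 0) := by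
  have hcomp : CompleteSpace (Matrix (Fin d) (Fin d) ℂ) := FiniteDimensional.complete ℂ _
  have hs : spectralRadius ℂ N < (1 : NNReal) := by
    apply spectrum.spectralRadius_lt_of_forall_lt_of_nonempty (spectrum.nonempty N)
    intro k hk
    exact_mod_cast hN k hk
  obtain ⟨r, hr1, hr2⟩ := ENNReal.lt_iff_exists_nnreal_btwn.1 hs
  have hr1' : r < 1 := by exact_mod_cast hr2
  have ht := spectrum.pow_nnnorm_pow_one_div_tendsto_nhds_spectralRadius N
  have hev := ht.eventually_lt_const hr1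
  obtain ⟨n0, hn0⟩ := eventually_atTop.1 hev
  have hb : ∀ n, n0 + 1 ≤ n → ‖N ^ n‖ ≤ (r:ℝ) ^ n := by
    intro n hn
    have h := hn0 n (by omega)
    have hnpos : (0:ℝ) < n := by exact_mod_cast (by omega : 0 < n)
    have h2 : ((‖N ^ n‖₊ : ENNReal)) < (r : ENNReal) ^ (n:ℝ) := by
      have h3 := ENNReal.rpow_lt_rpow h hnpos
      rwa [← ENNReal.rpow_mul, one_div_mul_cancel hnpos.ne', ENNReal.rpow_one] at h3
    rw [ENNReal.rpow_natCast] at h2
    have h4 : ‖N ^ n‖₊ < r ^ n := by exact_mod_cast h2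
    have h5 : (‖N ^ n‖₊ : ℝ) < ((r ^ n : NNReal) : ℝ) := by exact_mod_cast h4
    rw [NNReal.coe_pow] at h5
    exact h5.le
  have h0 : Tendsto (fun n : ℕ => (r:ℝ) ^ n) atTop (𝓝 0) :=
    tendsto_pow_atTop_nhds_zero_of_lt_one r.coe_nonneg (by exact_mod_cast hr1')
  refine squeeze_zero' (Eventually.of_forall fun n => norm_nonneg _) ?_ h0
  filter_upwards [eventually_ge_atTop (n0 + 1)] with n hn using hb n hn

/-- the determinant of an expanding integer matrix does not vanish -/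
lemma det_ne_zero {d : ℕ} (R : Matrix (Fin d) (Fin d) ℤ)
    (hR : ∀ z : ℂ, (R.map (Int.castRingHom ℂ)).charpoly.IsRoot z → 1 < ‖z‖) :
    R.det ≠ 0 := by
  intro h
  have h1 : (R.map (Int.castRingHom ℂ)).det = 0 := by
    have := (Int.castRingHom ℂ).map_det R
    rw [h, map_zero] at this
    exact this.symm
  have h2 : (R.map (Int.castRingHom ℂ)).charpoly.IsRoot 0 := by
    rw [Matrix.det_eq_sign_charpoly_coeff] at h1
    have h3 : (R.map (Int.castRingHom ℂ)).charpoly.coeff 0 = 0 := by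
      rcases mul_eq_zero.1 h1 with h | h
      · exact absurd h (pow_ne_zero _ (by norm_num))
      · exact h
    rw [Polynomial.IsRoot.def, ← Polynomial.coeff_zero_eq_eval_zero, h3]
  have := hR 0 h2
  simp at this
  linarith

lemma det_real_ne {d : ℕ} (R : Matrix (Fin d) (Fin d) ℤ) (h : R.det ≠ 0) :
    IsUnit (R.map (Int.castRingHom ℝ)).det := by
  have := (Int.castRingHom ℝ).map_det R
  rw [isUnit_iff_ne_zero]
  have h2 : (R.map (Int.castRingHom ℝ)).det = ((R.det : ℤ) : ℝ) := by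
    exact this.symm
  rw [h2]
  exact_mod_cast h

/-- spectrum of the inverse -/
lemma spec_inv {d : ℕ} (R : Matrix (Fin d) (Fin d) ℤ)
    (hR : ∀ z : ℂ, (R.map (Int.castRingHom ℂ)).charpoly.IsRoot z → 1 < ‖z‖) :
    ∀ μ ∈ spectrum ℂ ((R.map (Int.castRingHom ℂ))⁻¹), ‖μ‖ < 1 := by
  intro μ hμ
  have hdet : IsUnit (R.map (Int.castRingHom ℂ)).det := by
    have h1 := (Int.castRingHom ℂ).map_det R
    rw [isUnit_iff_ne_zero]
    have h2 : (R.map (Int.castRingHom ℂ)).det = ((R.det : ℤ) : ℂ) := h1.symm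
    rw [h2]
    exact_mod_cast det_ne_zero R hR
  set C := R.map (Int.castRingHom ℂ) with hC
  rw [spectrum.mem_iff] at hμ
  have hd0 : ((algebraMap ℂ (Matrix (Fin d) (Fin d) ℂ)) μ - C⁻¹).det = 0 := by
    by_contra hne
    exact hμ ((Matrix.isUnit_iff_isUnit_det _).2 (isUnit_iff_ne_zero.2 hne))
  obtain ⟨v, hv, hv2⟩ := Matrix.exists_mulVec_eq_zero_iff.2 hd0
  rw [Matrix.sub_mulVec, sub_eq_zero] at hv2
  have e1 : (algebraMap ℂ (Matrix (Fin d) (Fin d) ℂ)) μ *ᵥ v = μ • v := by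
    rw [Algebra.algebraMap_eq_smul_one, Matrix.smul_mulVec, Matrix.one_mulVec]
  rw [e1] at hv2
  have e2 : v = μ • (C *ᵥ v) := by
    have := congrArg (fun w => C *ᵥ w) hv2
    simp only [Matrix.mulVec_smul, Matrix.mulVec_mulVec, Matrix.mul_nonsing_inv _ hdet,
      Matrix.one_mulVec] at this
    exact this.symm
  have hμ0 : μ ≠ 0 := by
    rintro rfl
    rw [zero_smul] at e2
    exact hv e2
  have e3 : C *ᵥ v = μ⁻¹ • v := by
    conv_rhs => rw [e2]
    rw [smul_smul, inv_mul_cancel₀ hμ0, one_smul]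
  have hroot : C.charpoly.IsRoot μ⁻¹ := by
    rw [Polynomial.IsRoot.def, Matrix.eval_charpoly]
    apply Matrix.exists_mulVec_eq_zero_iff.1
    refine ⟨v, hv, ?_⟩
    rw [Matrix.sub_mulVec, e3, sub_eq_zero]
    funext i
    simp [Matrix.scalar_apply, Matrix.mulVec_diagonal]
  have := hR _ hroot
  rw [norm_inv] at this
  by_contra hcon
  push Not at hcon
  have h3 : ‖μ‖⁻¹ ≤ 1 := inv_le_one_of_one_le₀ hcon
  linarith

attribute [local instance] Matrix.linftyOpNormedRing Matrix.linftyOpNormedAlgebra in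
/-- powers of the inverse of an expanding matrix tend to zero -/
theorem pow_small {d : ℕ} (R : Matrix (Fin d) (Fin d) ℤ)
    (hR : ∀ z : ℂ, (R.map (Int.castRingHom ℂ)).charpoly.IsRoot z → 1 < ‖z‖) (ε : ℝ) (hε : 0 < ε) :
    ∃ n0 : ℕ, ∀ n, n0 ≤ n → ∀ x : Fin d → ℝ,
      ‖((R.map (Int.castRingHom ℝ))⁻¹ ^ n) *ᵥ x‖ ≤ ε * ‖x‖ := by
  rcases Nat.eq_zero_or_pos d with hd | hd
  · subst hd
    refine ⟨0, fun n _ x => ?_⟩
    have h1 : x = 0 := Subsingleton.elim _ _
    rw [h1, Matrix.mulVec_zero, norm_zero, mul_zero]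
  have i0 : Fin d := ⟨0, hd⟩
  have : Nonempty (Fin d) := ⟨i0⟩
  have ht := pow_small_complex _ (spec_inv R hR)
  obtain ⟨n0, hn0⟩ := eventually_atTop.1 (ht.eventually_lt_const hε)
  refine ⟨n0, fun n hn x => ?_⟩
  have hinv : (R.map (Int.castRingHom ℂ))⁻¹ =
      ((R.map (Int.castRingHom ℝ))⁻¹).map (algebraMap ℝ ℂ) := by
    have hu := det_real_ne R (det_ne_zero R hR)
    apply Matrix.inv_eq_right_inv
    have e1 : R.map (Int.castRingHom ℂ) = (R.map (Int.castRingHom ℝ)).map (algebraMap ℝ ℂ) := by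
      ext i j
      simp
    rw [e1, ← Matrix.map_mul, Matrix.mul_nonsing_inv _ hu]
    simp
  have hpow : (R.map (Int.castRingHom ℂ))⁻¹ ^ n =
      ((R.map (Int.castRingHom ℝ))⁻¹ ^ n).map (algebraMap ℝ ℂ) := by
    rw [hinv, Matrix.map_pow]
  have hyn : ‖(fun i => (x i : ℂ))‖ ≤ ‖x‖ := by
    rw [pi_norm_le_iff_of_nonneg (norm_nonneg _)]
    intro i
    rw [Complex.norm_real]
    exact norm_le_pi_norm x i
  rw [pi_norm_le_iff_of_nonneg (by positivity)]
  intro i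
  have h6 : (((((R.map (Int.castRingHom ℝ))⁻¹ ^ n) *ᵥ x) i : ℝ) : ℂ) =
      (((R.map (Int.castRingHom ℂ))⁻¹ ^ n) *ᵥ (fun i => (x i : ℂ))) i := by
    rw [hpow]
    simp [Matrix.mulVec, dotProduct]
  rw [← Complex.norm_real, h6]
  have hb := Matrix.linfty_opNorm_mulVec ((R.map (Int.castRingHom ℂ))⁻¹ ^ n) (fun i => (x i : ℂ))
  calc _ ≤ ‖((R.map (Int.castRingHom ℂ))⁻¹ ^ n) *ᵥ (fun i => (x i : ℂ))‖ := norm_le_pi_norm _ i
    _ ≤ _ := hb
    _ ≤ ε * ‖x‖ := mul_le_mul (hn0 n hn).le hyn (norm_nonneg _) hε.le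

end Pool.Agent.Helper540_Overlap
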