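import Pool.Agent.Helper540_Overlap.A1

set_option autoImplicit false
open MeasureTheory Matrix Filter Topology

namespace Pool.Agent.Helper540_Overlap

variable {d : ℕ}

/-- the inclusion of the lattice into the space -/
def io (b : Fin d → ℤ) : Fin d → ℝ := fun i => (b i : ℝ)

lemma io_add (a b : Fin d → ℤ) : io (a + b) = io a + io b := by
  funext i; simp [io]

lemma io_sub (a b : Fin d → ℤ) : io (a - b) = io a - io b := by
  funext i; simp [io]

lemma io_zero : io (0 : Fin d → ℤ) = 0 := by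
  funext i; simp [io]

lemma io_inj {a b : Fin d → ℤ} (h : io a = io b) : a = b := by
  funext i
  have := congrFun h i
  simpa [io] using this

/-- the real matrix -/
noncomputable def Rr (R : Matrix (Fin d) (Fin d) ℤ) : Matrix (Fin d) (Fin d) ℝ :=
  R.map (Int.castRingHom ℝ)

/-- the inverse of the real matrix -/
noncomputable def Ai (R : Matrix (Fin d) (Fin d) ℤ) : Matrix (Fin d) (Fin d) ℝ := (Rr R)⁻¹

lemma io_mulVec (R : Matrix (Fin d) (Fin d) ℤ) (b : Fin d → ℤ) :
    io (R *ᵥ b) = Rr R *ᵥ io b := by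
  funext i
  simp [io, Rr, Matrix.mulVec, dotProduct]

lemma io_pow_mulVec (R : Matrix (Fin d) (Fin d) ℤ) (n : ℕ) (b : Fin d → ℤ) :
    io ((R ^ n) *ᵥ b) = (Rr R ^ n) *ᵥ io b := by
  have : Rr R ^ n = Rr (R ^ n) := by
    rw [Rr, Rr, Matrix.map_pow]
  rw [this, io_mulVec]

/-- the maps of the system -/
noncomputable def phi (R : Matrix (Fin d) (Fin d) ℤ) (b : Fin d → ℤ) (x : Fin d → ℝ) :
    Fin d → ℝ := Ai R *ᵥ (x + io b)

/-- composition of the maps along a word -/
noncomputable def Phi (R : Matrix (Fin d) (Fin d) ℤ) : List (Fin d → ℤ) → (Fin d → ℝ) → (Fin d → ℝ)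
  | [], x => x
  | b :: w, x => phi R b (Phi R w x)

/-- the code of a word -/
def bet (R : Matrix (Fin d) (Fin d) ℤ) : List (Fin d → ℤ) → (Fin d → ℤ)
  | [] => 0
  | b :: w => bet R w + (R ^ w.length) *ᵥ b

lemma bet_append (R : Matrix (Fin d) (Fin d) ℤ) (u w : List (Fin d → ℤ)) :
    bet R (u ++ w) = bet R w + (R ^ w.length) *ᵥ bet R u := by
  induction u with
  | nil => simp [bet]
  | cons b u ih =>
    simp only [List.cons_append, bet, ih, List.length_append, Matrix.mulVec_add,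
      Matrix.mulVec_mulVec]
    rw [add_assoc, pow_add, ← (Commute.pow_pow_self R _ _).eq]

lemma Phi_append (R : Matrix (Fin d) (Fin d) ℤ) (u w : List (Fin d → ℤ)) (x : Fin d → ℝ) :
    Phi R (u ++ w) x = Phi R u (Phi R w x) := by
  induction u with
  | nil => rfl
  | cons b u ih => simp only [List.cons_append, Phi, ih]

lemma Ai_mul (R : Matrix (Fin d) (Fin d) ℤ) (hu : IsUnit (Rr R).det) : Ai R * Rr R = 1 :=
  Matrix.nonsing_inv_mul _ hu

lemma Rr_mul (R : Matrix (Fin d) (Fin d) ℤ) (hu : IsUnit (Rr R).det) : Rr R * Ai R = 1 :=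
  Matrix.mul_nonsing_inv _ hu

lemma Ai_pow_mul (R : Matrix (Fin d) (Fin d) ℤ) (hu : IsUnit (Rr R).det) (n : ℕ) :
    Ai R ^ n * Rr R ^ n = 1 := by
  have hc : Commute (Ai R) (Rr R) := by
    rw [Commute, SemiconjBy, Ai_mul R hu, Rr_mul R hu]
  rw [← hc.mul_pow, Ai_mul R hu, one_pow]

lemma Rr_pow_mul (R : Matrix (Fin d) (Fin d) ℤ) (hu : IsUnit (Rr R).det) (n : ℕ) :
    Rr R ^ n * Ai R ^ n = 1 := by
  have hc : Commute (Rr R) (Ai R) := by
    rw [Commute, SemiconjBy, Ai_mul R hu, Rr_mul R hu]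
  rw [← hc.mul_pow, Rr_mul R hu, one_pow]

lemma Phi_eq (R : Matrix (Fin d) (Fin d) ℤ) (hu : IsUnit (Rr R).det) (w : List (Fin d → ℤ))
    (x : Fin d → ℝ) : Phi R w x = (Ai R ^ w.length) *ᵥ (x + io (bet R w)) := by
  induction w with
  | nil => simp [Phi, bet, io_zero]
  | cons b w ih =>
    simp only [Phi, phi, bet, ih, List.length_cons, io_add, io_pow_mulVec]
    have e1 : (Ai R ^ (w.length + 1)) *ᵥ ((Rr R ^ w.length) *ᵥ io b) = Ai R *ᵥ io b := by
      rw [Matrix.mulVec_mulVec, pow_succ', Matrix.mul_assoc, Ai_pow_mul R hu, Matrix.mul_one]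
    rw [← add_assoc, Matrix.mulVec_add (Ai R ^ (w.length + 1)) _ ((Rr R ^ w.length) *ᵥ io b), e1,
      Matrix.mulVec_add (Ai R), pow_succ', ← Matrix.mulVec_mulVec]

lemma Phi_sub (R : Matrix (Fin d) (Fin d) ℤ) (hu : IsUnit (Rr R).det) (w : List (Fin d → ℤ))
    (x y : Fin d → ℝ) : Phi R w x - Phi R w y = (Ai R ^ w.length) *ᵥ (x - y) := by
  rw [Phi_eq R hu, Phi_eq R hu, ← Matrix.mulVec_sub]
  congr 1
  abel

lemma Phi_inj_iff (R : Matrix (Fin d) (Fin d) ℤ) (hu : IsUnit (Rr R).det)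
    (w w' : List (Fin d → ℤ)) (hl : w.length = w'.length)
    (x y : Fin d → ℝ) : Phi R w x = Phi R w' y ↔ x + io (bet R w) = y + io (bet R w') := by
  rw [Phi_eq R hu, Phi_eq R hu, hl]
  constructor
  · intro h
    have := congrArg (fun z => (Rr R ^ w'.length) *ᵥ z) h
    simpa only [Matrix.mulVec_mulVec, Rr_pow_mul R hu, Matrix.one_mulVec] using this
  · intro h
    rw [h]

lemma continuous_Phi (R : Matrix (Fin d) (Fin d) ℤ) (w : List (Fin d → ℤ)) :
    Continuous (Phi R w) := by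
  induction w with
  | nil => exact continuous_id
  | cons b w ih =>
    have : Phi R (b :: w) = fun x => Ai R *ᵥ (Phi R w x + io b) := rfl
    rw [this]
    exact Continuous.matrix_mulVec continuous_const (ih.add continuous_const)

/-- words of length `n` over the digit set -/
def Wd (B : Finset (Fin d → ℤ)) : ℕ → Finset (List (Fin d → ℤ))
  | 0 => {[]}
  | n + 1 => (B ×ˢ Wd B n).map ⟨fun p => p.1 :: p.2, by
      rintro ⟨a, b⟩ ⟨a', b'⟩ h
      simpa using h⟩

lemma mem_Wd (B : Finset (Fin d → ℤ)) (n : ℕ) (w : List (Fin d → ℤ)) :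
    w ∈ Wd B n ↔ w.length = n ∧ ∀ b ∈ w, b ∈ B := by
  induction n generalizing w with
  | zero =>
    simp only [Wd, Finset.mem_singleton, List.length_eq_zero_iff]
    constructor
    · rintro rfl; simp
    · rintro ⟨h, -⟩; exact h
  | succ n ih =>
    simp only [Wd, Finset.mem_map, Finset.mem_product, Function.Embedding.coeFn_mk, Prod.exists]
    constructor
    · rintro ⟨b, v, ⟨hb, hv⟩, rfl⟩
      obtain ⟨h1, h2⟩ := (ih v).1 hv
      refine ⟨by simp [h1], ?_⟩
      intro c hc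
      rcases List.mem_cons.1 hc with rfl | hc
      · exact hb
      · exact h2 c hc
    · rintro ⟨h1, h2⟩
      cases w with
      | nil => simp at h1
      | cons b v =>
        refine ⟨b, v, ⟨h2 b (by simp), (ih v).2 ⟨by simpa using h1, fun c hc => h2 c (by simp [hc])⟩⟩,
          rfl⟩

lemma length_of_mem {B : Finset (Fin d → ℤ)} {n : ℕ} {w : List (Fin d → ℤ)} (h : w ∈ Wd B n) :
    w.length = n := ((mem_Wd B n w).1 h).1

lemma cons_mem_Wd {B : Finset (Fin d → ℤ)} {n : ℕ} {b : Fin d → ℤ} {w : List (Fin d → ℤ)}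
    (hb : b ∈ B) (hw : w ∈ Wd B n) : b :: w ∈ Wd B (n + 1) := by
  rw [mem_Wd] at hw ⊢
  refine ⟨by simp [hw.1], ?_⟩
  intro c hc
  rcases List.mem_cons.1 hc with rfl | hc
  · exact hb
  · exact hw.2 c hc

lemma append_mem_Wd {B : Finset (Fin d → ℤ)} {m n : ℕ} {u w : List (Fin d → ℤ)}
    (hu : u ∈ Wd B m) (hw : w ∈ Wd B n) : u ++ w ∈ Wd B (m + n) := by
  rw [mem_Wd] at hu hw ⊢
  refine ⟨by simp [hu.1, hw.1], ?_⟩
  intro c hc
  rcases List.mem_append.1 hc with hc | hc
  · exact hu.2 c hc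
  · exact hw.2 c hc

lemma sum_Wd_succ {M : Type*} [AddCommMonoid M] (B : Finset (Fin d → ℤ)) (n : ℕ)
    (f : List (Fin d → ℤ) → M) :
    ∑ w ∈ Wd B (n + 1), f w = ∑ b ∈ B, ∑ w ∈ Wd B n, f (b :: w) := by
  rw [Wd, Finset.sum_map, Finset.sum_product]
  rfl

lemma card_Wd (B : Finset (Fin d → ℤ)) (n : ℕ) : (Wd B n).card = B.card ^ n := by
  induction n with
  | zero => simp [Wd]
  | succ n ih => rw [Wd, Finset.card_map, Finset.card_product, ih, pow_succ']

end Pool.Agent.Helper540_Overlap
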