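import Pool.Agent.Helper540_Overlap.A2

set_option autoImplicit false
open MeasureTheory Matrix Filter Topology
open scoped ENNReal

namespace Pool.Agent.Helper540_Overlap

variable {d : ℕ}

/-- all data of the problem except the spectrum -/
structure Sys (R : Matrix (Fin d) (Fin d) ℤ) (B : Finset (Fin d → ℤ))
    (μ : Measure (Fin d → ℝ)) (T : Set (Fin d → ℝ)) : Prop where
  exp : ∀ z : ℂ, (R.map (Int.castRingHom ℂ)).charpoly.IsRoot z → 1 < ‖z‖
  prob : IsProbabilityMeasure μ
  inv : μ = ∑ b ∈ B, ((B.card : ENNReal)⁻¹) • μ.map (phi R b)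
  cpt : IsCompact T
  ne : T.Nonempty
  att : T = ⋃ b ∈ B, phi R b '' T

namespace Sys

variable {R : Matrix (Fin d) (Fin d) ℤ} {B : Finset (Fin d → ℤ)}
    {μ : Measure (Fin d → ℝ)} {T : Set (Fin d → ℝ)}

lemma unit (h : Sys R B μ T) : IsUnit (Rr R).det := det_real_ne R (det_ne_zero R h.exp)

lemma small (h : Sys R B μ T) (ε : ℝ) (hε : 0 < ε) :
    ∃ n0 : ℕ, ∀ n, n0 ≤ n → ∀ x : Fin d → ℝ, ‖(Ai R ^ n) *ᵥ x‖ ≤ ε * ‖x‖ :=
  pow_small R h.exp ε hε

lemma meas_phi (b : Fin d → ℤ) : Measurable (phi R b) :=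
  (continuous_Phi R [b]).measurable

lemma meas_Phi (w : List (Fin d → ℤ)) : Measurable (Phi R w) :=
  (continuous_Phi R w).measurable

lemma card_ne (h : Sys R B μ T) : (B.card : ℝ≥0∞) ≠ 0 := by
  intro h0
  have hB : B = ∅ := by
    rw [← Finset.card_eq_zero]
    exact_mod_cast h0
  have h1 := h.inv
  have h2 := h.prob.measure_univ
  rw [hB, Finset.sum_empty] at h1
  rw [h1] at h2
  simp at h2

/-- iterated invariance -/
lemma iter (h : Sys R B μ T) (n : ℕ) :
    μ = ∑ w ∈ Wd B n, ((B.card : ENNReal)⁻¹) ^ n • μ.map (Phi R w) := by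
  induction n with
  | zero =>
    have : Phi R ([] : List (Fin d → ℤ)) = id := rfl
    simp [Wd, this]
  | succ n ih =>
    rw [sum_Wd_succ]
    conv_lhs => rw [h.inv]
    refine Finset.sum_congr rfl fun b _ => ?_
    have e1 : μ.map (phi R b) =
        ∑ w ∈ Wd B n, ((B.card : ENNReal)⁻¹) ^ n • μ.map (Phi R (b :: w)) := by
      conv_lhs => rw [ih]
      rw [Measure.map_finset_sum (meas_phi b).aemeasurable]
      refine Finset.sum_congr rfl fun w _ => ?_
      rw [Measure.map_smul, Measure.map_map (meas_phi b) (meas_Phi w)]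
      rfl
    rw [e1, Finset.smul_sum]
    refine Finset.sum_congr rfl fun w _ => ?_
    rw [smul_smul, pow_succ']

lemma iter_apply (h : Sys R B μ T) (n : ℕ) {S : Set (Fin d → ℝ)} (hS : MeasurableSet S) :
    μ S = ∑ w ∈ Wd B n, ((B.card : ENNReal)⁻¹) ^ n * μ (Phi R w ⁻¹' S) := by
  conv_lhs => rw [h.iter n]
  rw [Measure.finsetSum_apply]
  refine Finset.sum_congr rfl fun w _ => ?_
  rw [Measure.smul_apply, Measure.map_apply (meas_Phi w) hS, smul_eq_mul]

lemma sum_weights (h : Sys R B μ T) (n : ℕ) :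
    ∑ _w ∈ Wd B n, ((B.card : ENNReal)⁻¹) ^ n = 1 := by
  rw [Finset.sum_const, card_Wd, nsmul_eq_mul]
  push_cast
  rw [← mul_pow, ENNReal.mul_inv_cancel h.card_ne (ENNReal.natCast_ne_top _), one_pow]

lemma att_iter (h : Sys R B μ T) (n : ℕ) : T = ⋃ w ∈ Wd B n, Phi R w '' T := by
  induction n with
  | zero =>
    have : Phi R ([] : List (Fin d → ℤ)) = id := rfl
    simp [Wd, this]
  | succ n ih =>
    ext x
    constructor
    · intro hx
      rw [h.att] at hx
      simp only [Set.mem_iUnion, exists_prop] at hx ⊢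
      obtain ⟨b, hb, y, hy, rfl⟩ := hx
      rw [ih] at hy
      simp only [Set.mem_iUnion, exists_prop] at hy
      obtain ⟨w, hw, z, hz, rfl⟩ := hy
      exact ⟨b :: w, cons_mem_Wd hb hw, z, hz, rfl⟩
    · intro hx
      simp only [Set.mem_iUnion, exists_prop] at hx
      obtain ⟨w, hw, z, hz, rfl⟩ := hx
      rw [h.att]
      simp only [Set.mem_iUnion, exists_prop]
      rw [mem_Wd] at hw
      cases w with
      | nil => simp at hw
      | cons b v =>
        refine ⟨b, hw.2 b (by simp), Phi R v z, ?_, rfl⟩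
        rw [ih]
        simp only [Set.mem_iUnion, exists_prop]
        exact ⟨v, (mem_Wd B n v).2 ⟨by simpa using hw.1, fun c hc => hw.2 c (by simp [hc])⟩, z, hz, rfl⟩

lemma Phi_mem (h : Sys R B μ T) {n : ℕ} {w : List (Fin d → ℤ)} (hw : w ∈ Wd B n) {x : Fin d → ℝ}
    (hx : x ∈ T) : Phi R w x ∈ T := by
  rw [h.att_iter n]
  simp only [Set.mem_iUnion, exists_prop]
  exact ⟨w, hw, x, hx, rfl⟩

lemma thick_full (h : Sys R B μ T) (ε : ℝ) (hε : 0 < ε) : μ (Metric.cthickening ε T) = 1 := by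
  have := h.prob
  obtain ⟨t, ht⟩ := h.ne
  have key : ∀ r : ℕ, μ (Metric.closedBall t r) ≤ μ (Metric.cthickening ε T) := by
    intro r
    obtain ⟨n, hn⟩ := h.small (ε / (r + 1)) (by positivity)
    have hn := hn n le_rfl
    rw [h.iter_apply n Metric.isClosed_cthickening.measurableSet]
    calc μ (Metric.closedBall t r) = ∑ w ∈ Wd B n, ((B.card : ENNReal)⁻¹) ^ n *
          μ (Metric.closedBall t r) := by
            rw [← Finset.sum_mul, h.sum_weights, one_mul]
      _ ≤ _ := by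
        refine Finset.sum_le_sum fun w hw => ?_
        gcongr
        intro x hx
        rw [Set.mem_preimage]
        refine Metric.mem_cthickening_of_dist_le _ (Phi R w t) _ _ (h.Phi_mem hw ht) ?_
        rw [dist_eq_norm, Phi_sub R h.unit, length_of_mem hw]
        refine (hn _).trans ?_
        rw [Metric.mem_closedBall, dist_eq_norm] at hx
        calc ε / (r + 1) * ‖x - t‖ ≤ ε / (r + 1) * r := by gcongr
          _ ≤ ε / (r + 1) * (r + 1) := by gcongr; linarith
          _ = ε := by field_simp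
  have hlim : Tendsto (fun r : ℕ => μ (Metric.closedBall t r)) atTop
      (𝓝 (μ (⋃ r : ℕ, Metric.closedBall t r))) := by
    apply tendsto_measure_iUnion_atTop
    intro a b hab
    exact Metric.closedBall_subset_closedBall (by exact_mod_cast hab)
  rw [Metric.iUnion_closedBall_nat, measure_univ] at hlim
  apply le_antisymm prob_le_one
  exact le_of_tendsto' hlim key

/-- the measure is carried by the attractor -/
lemma full (h : Sys R B μ T) : μ T = 1 := by
  have := h.prob
  have h1 : Tendsto (fun r => μ (Metric.cthickening r T)) (𝓝 0) (𝓝 (μ T)) :=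
    tendsto_measure_cthickening_of_isClosed ⟨1, one_pos, measure_ne_top _ _⟩ h.cpt.isClosed
  have h2 : Tendsto (fun n : ℕ => (1 : ℝ) / (n + 1)) atTop (𝓝 0) :=
    tendsto_one_div_add_atTop_nhds_zero_nat
  have h3 := h1.comp h2
  have h4 : (fun r => μ (Metric.cthickening r T)) ∘ (fun n : ℕ => (1 : ℝ) / (n + 1)) =
      fun _ => 1 := by
    funext n
    exact h.thick_full _ (by positivity)
  rw [h4] at h3
  exact (tendsto_nhds_unique h3 tendsto_const_nhds)

lemma ae_mem (h : Sys R B μ T) : ∀ᵐ x ∂μ, x ∈ T := by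
  have := h.prob
  exact (mem_ae_iff_prob_eq_one h.cpt.isClosed.measurableSet).2 h.full

/-- open sets that meet the attractor have positive measure -/
lemma open_pos (h : Sys R B μ T) {O : Set (Fin d → ℝ)} (hO : IsOpen O) {t : Fin d → ℝ}
    (ht : t ∈ T) (htO : t ∈ O) : 0 < μ O := by
  have := h.prob
  obtain ⟨ε, hε, hball⟩ := Metric.isOpen_iff.1 hO t htO
  obtain ⟨C, hC⟩ := h.cpt.isBounded.exists_norm_le
  have hC0 : 0 ≤ C := (norm_nonneg _).trans (hC t ht)
  obtain ⟨n, hn⟩ := h.small (ε / (2 * C + 1)) (by positivity)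
  have hn := hn n le_rfl
  have ht' := ht
  rw [h.att_iter n] at ht'
  simp only [Set.mem_iUnion, exists_prop] at ht'
  obtain ⟨w, hw, s, hs, hst⟩ := ht'
  have hsub : T ⊆ Phi R w ⁻¹' O := by
    intro x hx
    apply hball
    rw [Metric.mem_ball, dist_eq_norm, ← hst, Phi_sub R h.unit, length_of_mem hw]
    refine (hn _).trans_lt ?_
    have h1 : ‖x - s‖ ≤ 2 * C := by
      calc ‖x - s‖ ≤ ‖x‖ + ‖s‖ := norm_sub_le _ _
        _ ≤ 2 * C := by linarith [hC x hx, hC s hs]
    calc ε / (2 * C + 1) * ‖x - s‖ ≤ ε / (2 * C + 1) * (2 * C) := by gcongr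
      _ < ε / (2 * C + 1) * (2 * C + 1) := by gcongr; linarith
      _ = ε := by field_simp
  rw [h.iter_apply n hO.measurableSet]
  have h1 : (0 : ℝ≥0∞) < ((B.card : ENNReal)⁻¹) ^ n * μ (Phi R w ⁻¹' O) := by
    have h2 : μ (Phi R w ⁻¹' O) = 1 := by
      apply le_antisymm prob_le_one
      rw [← h.full]
      exact measure_mono hsub
    rw [h2, mul_one]
    exact ENNReal.pow_pos (ENNReal.inv_pos.2 (ENNReal.natCast_ne_top _)) n
  refine lt_of_lt_of_le h1 ?_
  exact Finset.single_le_sum (f := fun w => ((B.card : ENNReal)⁻¹) ^ n * μ (Phi R w ⁻¹' O))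
    (fun _ _ => zero_le) hw

end Sys

end Pool.Agent.Helper540_Overlap
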