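import Pool.Agent.Helper540_Overlap.A3

set_option autoImplicit false
open MeasureTheory Matrix Filter Topology
open scoped ENNReal InnerProductSpace

namespace Pool.Agent.Helper540_Overlap

variable {d : ℕ}

/-- the exponential with frequency `l` -/
noncomputable def ex (l x : Fin d → ℝ) : ℂ :=
  Complex.exp (2 * Real.pi * Complex.I * ((∑ i, l i * x i : ℝ) : ℂ))

lemma ex_add (l x y : Fin d → ℝ) : ex l (x + y) = ex l x * ex l y := by
  rw [ex, ex, ex, ← Complex.exp_add]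
  congr 1
  rw [← mul_add]
  congr 1
  rw [← Complex.ofReal_add, ← Finset.sum_add_distrib]
  congr 2
  funext i
  simp [mul_add]

lemma norm_ex (l x : Fin d → ℝ) : ‖ex l x‖ = 1 := by
  rw [ex]
  have : (2 * (Real.pi : ℂ) * Complex.I * ((∑ i, l i * x i : ℝ) : ℂ)) =
      ((2 * Real.pi * ∑ i, l i * x i : ℝ) : ℂ) * Complex.I := by
    push_cast; ring
  rw [this, Complex.norm_exp_ofReal_mul_I]

lemma continuous_ex (l : Fin d → ℝ) : Continuous (ex l) := by
  unfold ex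
  fun_prop

/-- a complete orthonormal family of exponentials -/
def IsSpec (μ : Measure (Fin d → ℝ)) : Prop :=
  ∃ (Λ : Set (Fin d → ℝ)) (e : Λ → MeasureTheory.Lp ℂ 2 μ),
      (∀ l : Λ, (e l : (Fin d → ℝ) → ℂ) =ᵐ[μ] fun x => ex (l : Fin d → ℝ) x) ∧
      Orthonormal ℂ e ∧
      (Submodule.span ℂ (Set.range e)).topologicalClosure = ⊤

lemma inner_toLp {μ : Measure (Fin d → ℝ)} {f g : (Fin d → ℝ) → ℂ} {e : Lp ℂ 2 μ}
    (he : (e : (Fin d → ℝ) → ℂ) =ᵐ[μ] g) (hf : MemLp f 2 μ) :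
    ⟪e, hf.toLp f⟫_ℂ = ∫ x, f x * (starRingEnd ℂ) (g x) ∂μ := by
  rw [L2.inner_def]
  apply integral_congr_ae
  filter_upwards [he, hf.coeFn_toLp] with x h1 h2
  rw [h1, h2, RCLike.inner_apply]

/-- two functions whose coefficients have equal moduli have the same norm -/
lemma parseval_cmp {μ : Measure (Fin d → ℝ)} (hs : IsSpec μ)
    {f g : (Fin d → ℝ) → ℂ} (hf : MemLp f 2 μ) (hg : MemLp g 2 μ)
    (h : ∀ l : Fin d → ℝ, ‖∫ x, f x * (starRingEnd ℂ) (ex l x) ∂μ‖ =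
      ‖∫ x, g x * (starRingEnd ℂ) (ex l x) ∂μ‖) :
    ‖hf.toLp f‖ = ‖hg.toLp g‖ := by
  obtain ⟨Λ, e, he, ho, hc⟩ := hs
  let b := HilbertBasis.mk ho hc.ge
  have hb : ∀ l, b l = e l := fun l => by
    rw [HilbertBasis.coe_mk]
  have key : ∀ {f : (Fin d → ℝ) → ℂ} (hf : MemLp f 2 μ), ‖hf.toLp f‖ ^ 2 =
      ∑' l : Λ, ‖∫ x, f x * (starRingEnd ℂ) (ex (l : Fin d → ℝ) x) ∂μ‖ ^ 2 := by
    intro f hf
    have h1 := b.tsum_inner_mul_inner (hf.toLp f) (hf.toLp f)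
    have h0 := inner_self_eq_norm_sq (𝕜 := ℂ) (hf.toLp f)
    have h2 : ∀ l : Λ, ⟪hf.toLp f, b l⟫_ℂ * ⟪b l, hf.toLp f⟫_ℂ =
        ((‖∫ x, f x * (starRingEnd ℂ) (ex (l : Fin d → ℝ) x) ∂μ‖ ^ 2 : ℝ) : ℂ) := by
      intro l
      rw [hb, ← inner_toLp (he l) hf, ← inner_conj_symm, RCLike.conj_mul]
      norm_cast
    simp_rw [h2] at h1
    rw [← Complex.ofReal_tsum] at h1
    rw [← h0, ← h1]
    exact Complex.ofReal_re _
  have h4 : ‖hf.toLp f‖ ^ 2 = ‖hg.toLp g‖ ^ 2 := by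
    rw [key hf, key hg]
    congr 1
    funext l
    rw [h]
  exact (pow_left_inj₀ (norm_nonneg _) (norm_nonneg _) two_ne_zero).1 h4

lemma norm_toLp_sq {μ : Measure (Fin d → ℝ)} {f : (Fin d → ℝ) → ℂ} (hf : MemLp f 2 μ) :
    ‖hf.toLp f‖ ^ 2 = ∫ x, ‖f x‖ ^ 2 ∂μ := by
  have h1 : ⟪hf.toLp f, hf.toLp f⟫_ℂ = ∫ x, f x * (starRingEnd ℂ) (f x) ∂μ :=
    inner_toLp hf.coeFn_toLp hf
  have h0 := inner_self_eq_norm_sq (𝕜 := ℂ) (hf.toLp f)
  have h2 : (∫ x, f x * (starRingEnd ℂ) (f x) ∂μ) = ((∫ x, ‖f x‖ ^ 2 ∂μ : ℝ) : ℂ) := by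
    rw [← integral_complex_ofReal]
    congr 1
    funext x
    rw [Complex.mul_conj, Complex.normSq_eq_norm_sq]
  rw [h2] at h1
  rw [← h0, h1]
  exact Complex.ofReal_re _

/-- the uniformity principle: a measure `ρ` with `2ρ ≤ μ` cannot have the same Fourier coefficients
in modulus as the restriction of `μ` to a set of the same mass. -/
lemma uniform {μ : Measure (Fin d → ℝ)} [IsProbabilityMeasure μ] (hs : IsSpec μ)
    {F : Set (Fin d → ℝ)} (hF : MeasurableSet F) {ρ : Measure (Fin d → ℝ)}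
    (h2 : (2 : ℝ≥0∞) • ρ ≤ μ) (hmass : ρ Set.univ = μ F)
    (hco : ∀ l : Fin d → ℝ, ‖∫ x in F, (starRingEnd ℂ) (ex l x) ∂μ‖ =
      ‖∫ x, (starRingEnd ℂ) (ex l x) ∂ρ‖) : μ F = 0 := by
  have hρμ : ρ ≤ μ := by
    refine le_trans ?_ h2
    intro s
    rw [Measure.smul_apply, smul_eq_mul]
    calc ρ s = 1 * ρ s := (one_mul _).symm
      _ ≤ 2 * ρ s := by gcongr; norm_num
  have hfin : IsFiniteMeasure ρ := isFiniteMeasure_of_le μ hρμ
  have hac : ρ ≪ μ := Measure.absolutelyContinuous_of_le hρμ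
  have hleb : ρ.HaveLebesgueDecomposition μ :=
    Measure.haveLebesgueDecomposition_of_sigmaFinite ρ μ
  have hu1 : ∀ᵐ x ∂μ, (ρ.rnDeriv μ x).toReal ≤ 1 / 2 := by
    have h3 := Measure.rnDeriv_le_one_of_le h2
    have h4 := Measure.rnDeriv_smul_left_of_ne_top ρ μ (r := 2) (by norm_num)
    filter_upwards [h3, h4] with x h5 h6
    rw [h6] at h5
    simp only [Pi.smul_apply, smul_eq_mul, Pi.one_apply] at h5
    have h7 : ρ.rnDeriv μ x ≤ 1 / 2 := by
      rw [ENNReal.le_div_iff_mul_le (by simp) (by simp), mul_comm]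
      exact h5
    have h8 := ENNReal.toReal_mono (by simp) h7
    simpa using h8
  set u : (Fin d → ℝ) → ℝ := fun x => (ρ.rnDeriv μ x).toReal with hu
  have hum : Measurable u := (Measure.measurable_rnDeriv ρ μ).ennreal_toReal
  have hu0 : ∀ x, 0 ≤ u x := fun x => ENNReal.toReal_nonneg
  let f : (Fin d → ℝ) → ℂ := F.indicator (fun _ => 1)
  let g : (Fin d → ℝ) → ℂ := fun x => (u x : ℂ)
  have hf : MemLp f 2 μ := by
    refine (memLp_const (1:ℂ)).indicator hF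
  have hg : MemLp g 2 μ := by
    refine MemLp.of_bound (C := 1/2) (Complex.measurable_ofReal.comp hum).aestronglyMeasurable ?_
    filter_upwards [hu1] with x hx
    simp only [g]
    rw [Complex.norm_real, Real.norm_of_nonneg (hu0 x)]
    exact hx
  have hcoef : ∀ l : Fin d → ℝ, ‖∫ x, f x * (starRingEnd ℂ) (ex l x) ∂μ‖ =
      ‖∫ x, g x * (starRingEnd ℂ) (ex l x) ∂μ‖ := by
    intro l
    have e1 : ∫ x, f x * (starRingEnd ℂ) (ex l x) ∂μ = ∫ x in F, (starRingEnd ℂ) (ex l x) ∂μ := by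
      rw [← integral_indicator hF]
      congr 1
      funext x
      by_cases hx : x ∈ F <;> simp [f, hx]
    have e2 : ∫ x, g x * (starRingEnd ℂ) (ex l x) ∂μ = ∫ x, (starRingEnd ℂ) (ex l x) ∂ρ := by
      rw [← integral_rnDeriv_smul hac]
      congr 1
    rw [e1, e2, hco]
  have hnorm := parseval_cmp hs hf hg hcoef
  have hn2 : ∫ x, ‖f x‖ ^ 2 ∂μ = ∫ x, ‖g x‖ ^ 2 ∂μ := by
    rw [← norm_toLp_sq hf, ← norm_toLp_sq hg, hnorm]
  have e3 : ∫ x, ‖f x‖ ^ 2 ∂μ = (μ F).toReal := by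
    have : (fun x => ‖f x‖ ^ 2) = F.indicator (fun _ => (1:ℝ)) := by
      funext x
      by_cases hx : x ∈ F <;> simp [f, hx]
    rw [this, integral_indicator hF]
    simp [Measure.real]
  have e4 : ∫ x, u x ∂μ = (μ F).toReal := by
    rw [hu, Measure.integral_toReal_rnDeriv hac, Measure.real, hmass]
  have hui : Integrable u μ := Measure.integrable_toReal_rnDeriv
  have e5 : ∫ x, ‖g x‖ ^ 2 ∂μ ≤ ∫ x, (1/2) * u x ∂μ := by
    apply integral_mono_ae
    · exact hg.integrable_norm_pow two_ne_zero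
    · exact hui.const_mul _
    · filter_upwards [hu1] with x hx
      simp only [g]
      rw [Complex.norm_real, Real.norm_of_nonneg (hu0 x)]
      have := hu0 x
      nlinarith
  rw [integral_const_mul, e4, ← hn2, e3] at e5
  have h9 : (μ F).toReal = 0 := by
    have : 0 ≤ (μ F).toReal := ENNReal.toReal_nonneg
    linarith
  rw [ENNReal.toReal_eq_zero_iff] at h9
  rcases h9 with h9 | h9
  · exact h9
  · exact absurd h9 (measure_ne_top _ _)

end Pool.Agent.Helper540_Overlap
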