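import Pool.Agent.Helper540_Overlap.A4

set_option autoImplicit false
open MeasureTheory Matrix Filter Topology
open scoped ENNReal InnerProductSpace

namespace Pool.Agent.Helper540_Overlap

variable {d : ℕ}

/-- dot product with a fixed vector -/
def dotl (a y : Fin d → ℝ) : ℝ := ∑ i, a i * y i

lemma dotl_add (a x y : Fin d → ℝ) : dotl a (x + y) = dotl a x + dotl a y := by
  simp [dotl, mul_add, Finset.sum_add_distrib]

lemma dotl_sub (a x y : Fin d → ℝ) : dotl a (x - y) = dotl a x - dotl a y := by
  simp [dotl, mul_sub, Finset.sum_sub_distrib]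

lemma continuous_dotl (a : Fin d → ℝ) : Continuous (dotl a) := by
  unfold dotl
  fun_prop

lemma pow_mulVec_inj {R : Matrix (Fin d) (Fin d) ℤ} (hu : IsUnit (Rr R).det) (n : ℕ)
    {a b : Fin d → ℤ} (h : (R ^ n) *ᵥ a = (R ^ n) *ᵥ b) : a = b := by
  apply io_inj
  have h1 : io ((R ^ n) *ᵥ a) = io ((R ^ n) *ᵥ b) := by rw [h]
  rw [io_pow_mulVec, io_pow_mulVec] at h1
  have h2 := congrArg (fun z => (Ai R ^ n) *ᵥ z) h1
  simpa only [Matrix.mulVec_mulVec, Ai_pow_mul R hu, Matrix.one_mulVec] using h2

/-- an exposed code is attained by one word only -/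
lemma extreme {R : Matrix (Fin d) (Fin d) ℤ} (hu : IsUnit (Rr R).det) (B : Finset (Fin d → ℤ))
    (L : (Fin d → ℤ) → ℝ) (hL : ∀ a b, L (a + b) = L a + L b) (n : ℕ)
    (ws : List (Fin d → ℤ)) (hws : ws ∈ Wd B n)
    (h1 : ∀ w ∈ Wd B n, L (bet R w) ≤ L (bet R ws))
    (h2 : ∀ w ∈ Wd B n, L (bet R w) = L (bet R ws) → bet R w = bet R ws) :
    ∀ w ∈ Wd B n, w ≠ ws → L (bet R w) < L (bet R ws) := by
  induction n generalizing ws with
  | zero =>
    intro w hw hne
    simp only [Wd, Finset.mem_singleton] at hw hws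
    rw [hw, hws] at hne
    exact absurd rfl hne
  | succ n ih =>
    intro w hw hne
    have hws' := (mem_Wd B _ _).1 hws
    have hw' := (mem_Wd B _ _).1 hw
    cases ws with
    | nil => simp at hws'
    | cons bs vs =>
      cases w with
      | nil => simp at hw'
      | cons b v =>
        have hvs : vs ∈ Wd B n := (mem_Wd B n vs).2
          ⟨by simpa using hws'.1, fun c hc => hws'.2 c (by simp [hc])⟩
        have hv : v ∈ Wd B n := (mem_Wd B n v).2
          ⟨by simpa using hw'.1, fun c hc => hw'.2 c (by simp [hc])⟩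
        have hbs : bs ∈ B := hws'.2 bs (by simp)
        have hb : b ∈ B := hw'.2 b (by simp)
        have k1 : ∀ v ∈ Wd B n, L (bet R v) ≤ L (bet R vs) := by
          intro v hv
          have := h1 _ (cons_mem_Wd hbs hv)
          simp only [bet, hL, length_of_mem hv, length_of_mem hvs] at this
          linarith
        have k2 : ∀ v ∈ Wd B n, L (bet R v) = L (bet R vs) → bet R v = bet R vs := by
          intro v hv he
          have := h2 _ (cons_mem_Wd hbs hv)
          simp only [bet, hL, length_of_mem hv, length_of_mem hvs] at this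
          have h3 := this (by rw [he])
          exact add_right_cancel h3
        have k3 := ih vs hvs k1 k2
        have k4 : L ((R ^ n) *ᵥ b) ≤ L ((R ^ n) *ᵥ bs) := by
          have := h1 _ (cons_mem_Wd hb hvs)
          simp only [bet, hL, length_of_mem hvs] at this
          linarith
        have k5 : L ((R ^ n) *ᵥ b) = L ((R ^ n) *ᵥ bs) → b = bs := by
          intro he
          have := h2 _ (cons_mem_Wd hb hvs)
          simp only [bet, hL, length_of_mem hvs] at this
          have h3 := this (by rw [he])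
          exact pow_mulVec_inj hu n (add_left_cancel h3)
        simp only [bet, hL, length_of_mem hv, length_of_mem hvs]
        by_cases hvv : v = vs
        · subst hvv
          have hbb : b ≠ bs := fun h => hne (by rw [h])
          have : L ((R ^ n) *ᵥ b) < L ((R ^ n) *ᵥ bs) := lt_of_le_of_ne k4 (fun h => hbb (k5 h))
          linarith
        · have := k3 v hv hvv
          linarith

namespace Sys

variable {R : Matrix (Fin d) (Fin d) ℤ} {B : Finset (Fin d → ℤ)}
    {μ : Measure (Fin d → ℝ)} {T : Set (Fin d → ℝ)}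

/-- there is an exposed word -/
lemma exists_exposed (h : Sys R B μ T) (n : ℕ) :
    ∃ (a : Fin d → ℝ) (ts : Fin d → ℝ) (ws : List (Fin d → ℤ)), ts ∈ T ∧ ws ∈ Wd B n ∧
      (∀ x ∈ T, dotl a x ≤ dotl a ts) ∧
      ∀ w ∈ Wd B n, w ≠ ws → dotl a (io (bet R w)) < dotl a (io (bet R ws)) := by
  classical
  set T' : Set (Fin d → ℝ) := ⋃ w ∈ Wd B n, (fun x => x + io (bet R w)) '' T with hT'
  have hcpt : IsCompact T' := by
    apply (Wd B n).isCompact_biUnion
    intro w _
    exact h.cpt.image (continuous_id.add continuous_const)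
  have hne : T'.Nonempty := by
    obtain ⟨t, ht⟩ := h.ne
    have ht' := ht
    rw [h.att_iter n] at ht'
    simp only [Set.mem_iUnion, exists_prop] at ht'
    obtain ⟨w, hw, s, hs, -⟩ := ht'
    exact ⟨s + io (bet R w), Set.mem_iUnion₂.2 ⟨w, hw, s, hs, rfl⟩⟩
  have hcont : Continuous (fun y : Fin d → ℝ => ∑ i, y i * y i) := by fun_prop
  obtain ⟨xs, hxs, hmax⟩ := hcpt.exists_isMaxOn hne hcont.continuousOn
  obtain ⟨ws, hws, ts, hts, hxeq⟩ := Set.mem_iUnion₂.1 hxs
  simp only at hxeq
  have hkey : ∀ y ∈ T', dotl xs y + (1/2) * ∑ i, (y i - xs i) ^ 2 ≤ dotl xs xs := by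
    intro y hy
    have h1 : ∑ i, y i * y i ≤ ∑ i, xs i * xs i := hmax hy
    have h2 : ∑ i, (y i - xs i) ^ 2 = ∑ i, y i * y i - 2 * ∑ i, xs i * y i + ∑ i, xs i * xs i := by
      rw [Finset.mul_sum, ← Finset.sum_sub_distrib, ← Finset.sum_add_distrib]
      refine Finset.sum_congr rfl fun i _ => ?_
      ring
    rw [dotl, dotl, h2]
    linarith
  have hle : ∀ y ∈ T', dotl xs y ≤ dotl xs xs := by
    intro y hy
    have := hkey y hy
    have h3 : 0 ≤ ∑ i, (y i - xs i) ^ 2 := Finset.sum_nonneg fun _ _ => sq_nonneg _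
    linarith
  have heq : ∀ y ∈ T', dotl xs y = dotl xs xs → y = xs := by
    intro y hy he
    have := hkey y hy
    have h3 : 0 ≤ ∑ i, (y i - xs i) ^ 2 := Finset.sum_nonneg fun _ _ => sq_nonneg _
    have h4 : ∑ i, (y i - xs i) ^ 2 = 0 := by linarith
    rw [Finset.sum_eq_zero_iff_of_nonneg (fun _ _ => sq_nonneg _)] at h4
    funext i
    have := h4 i (Finset.mem_univ i)
    have h5 := pow_eq_zero_iff (two_ne_zero) |>.1 this
    linarith
  have hmem : ∀ t ∈ T, ∀ w ∈ Wd B n, t + io (bet R w) ∈ T' := by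
    intro t ht w hw
    exact Set.mem_iUnion₂.2 ⟨w, hw, t, ht, rfl⟩
  have hxx : dotl xs xs = dotl xs ts + dotl xs (io (bet R ws)) := by rw [← dotl_add, hxeq]
  refine ⟨xs, ts, ws, hts, hws, ?_, ?_⟩
  · intro x hx
    have := hle _ (hmem x hx ws hws)
    rw [dotl_add, hxx] at this
    linarith
  · apply extreme h.unit B (fun b => dotl xs (io b)) (fun a b => by rw [io_add, dotl_add]) n ws hws
    · intro w hw
      have := hle _ (hmem ts hts w hw)
      rw [dotl_add, hxx] at this
      linarith
    · intro w hw he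
      have := heq _ (hmem ts hts w hw)
      rw [dotl_add, hxx] at this
      have h6 := this (by rw [he])
      have h7 : ts + io (bet R w) = ts + io (bet R ws) := by rw [h6, hxeq]
      exact io_inj (add_left_cancel h7)

/-- **No exact overlaps** for a spectral measure. -/
theorem no_exact (h : Sys R B μ T) (hs : IsSpec μ) (n : ℕ) (w1 w2 : List (Fin d → ℤ))
    (hw1 : w1 ∈ Wd B n) (hw2 : w2 ∈ Wd B n) (hbet : bet R w1 = bet R w2) : w1 = w2 := by
  classical
  by_contra hne
  have := h.prob
  obtain ⟨a, ts, ws, hts, hws, hmaxT, hmaxW⟩ := h.exists_exposed n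
  set O : Set (Fin d → ℝ) := ⋂ w ∈ (Wd B n).erase ws,
    {x | dotl a ts + dotl a (io (bet R w)) < dotl a x + dotl a (io (bet R ws))} with hO
  have hOo : IsOpen O := by
    apply isOpen_biInter_finset
    intro w _
    exact isOpen_lt continuous_const ((continuous_dotl a).add continuous_const)
  have htsO : ts ∈ O := by
    rw [hO]
    simp only [Set.mem_iInter, Finset.mem_erase, Set.mem_ofPred_eq]
    rintro w ⟨hw, hw'⟩
    have := hmaxW w hw' hw
    linarith
  have hOpos := h.open_pos hOo hts htsO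
  set E : Set (Fin d → ℝ) := O ∩ T with hE
  have hEm : MeasurableSet E := hOo.measurableSet.inter h.cpt.isClosed.measurableSet
  have hEpos : 0 < μ E := by
    have : μ E = μ O := by
      apply measure_congr
      filter_upwards [h.ae_mem] with x hx
      show (x ∈ E) = (x ∈ O)
      simp [hE, hx]
    rw [this]
    exact hOpos
  set Ψ : (Fin d → ℝ) → (Fin d → ℝ) := fun y => (Rr R ^ n) *ᵥ y - io (bet R ws) with hΨ
  have hΨc : Continuous Ψ := (Continuous.matrix_mulVec continuous_const continuous_id).sub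
    continuous_const
  set F : Set (Fin d → ℝ) := Ψ ⁻¹' E with hF
  have hFm : MeasurableSet F := hΨc.measurable hEm
  have hΨΦ : ∀ w ∈ Wd B n, ∀ x, Ψ (Phi R w x) = x + io (bet R w) - io (bet R ws) := by
    intro w hw x
    rw [hΨ]
    simp only
    rw [Phi_eq R h.unit, length_of_mem hw, Matrix.mulVec_mulVec, Rr_pow_mul R h.unit,
      Matrix.one_mulVec]
  have hout : ∀ w ∈ Wd B n, w ≠ ws → ∀ x ∈ T, Phi R w x ∉ F := by
    intro w hw hwne x hx hcon
    rw [hF, Set.mem_preimage, hΨΦ w hw x] at hcon
    have h1 := hcon.1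
    rw [hO] at h1
    simp only [Set.mem_iInter, Finset.mem_erase, Set.mem_ofPred_eq] at h1
    have h2 := h1 w ⟨hwne, hw⟩
    rw [dotl_sub, dotl_add] at h2
    have h3 := hmaxT x hx
    linarith
  have hin : ∀ x, Phi R ws x ∈ F ↔ x ∈ E := by
    intro x
    rw [hF, Set.mem_preimage, hΨΦ ws hws x, add_sub_cancel_right]
  set c : ℝ≥0∞ := ((B.card : ENNReal)⁻¹) ^ n with hc
  have hcpos : c ≠ 0 := by
    rw [hc]
    exact (ENNReal.pow_pos (ENNReal.inv_pos.2 (ENNReal.natCast_ne_top _)) n).ne'
  have hctop : c ≠ ⊤ := by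
    rw [hc]
    exact ENNReal.pow_ne_top (ENNReal.inv_ne_top.2 h.card_ne)
  -- the restriction of the measure to `F`
  have hrest : μ.restrict F = c • (μ.restrict E).map (Phi R ws) := by
    ext S hS
    rw [Measure.restrict_apply hS, Measure.smul_apply, Measure.map_apply (meas_Phi ws) hS,
      Measure.restrict_apply (meas_Phi ws hS), h.iter_apply n (hS.inter hFm), smul_eq_mul]
    rw [Finset.sum_eq_single ws]
    · congr 2
      ext x
      simp only [Set.mem_preimage, Set.mem_inter_iff]
      rw [hin]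
    · intro w hw hwne
      have : μ (Phi R w ⁻¹' (S ∩ F)) = 0 := by
        have h1 : Phi R w ⁻¹' (S ∩ F) ⊆ Tᶜ := by
          intro x hx hxT
          exact hout w hw hwne x hxT hx.2
        have h2 : μ Tᶜ = 0 := h.ae_mem
        exact measure_mono_null h1 h2
      rw [this, mul_zero]
    · intro hcon
      exact absurd hws hcon
  set ρ : Measure (Fin d → ℝ) := c • (μ.restrict E).map (Phi R w1) with hρ
  have hPhi : Phi R w1 = Phi R w2 := by
    funext x
    rw [Phi_eq R h.unit, Phi_eq R h.unit, length_of_mem hw1, length_of_mem hw2, hbet]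
  have h2ρ : (2 : ℝ≥0∞) • ρ ≤ μ := by
    rw [Measure.le_iff]
    intro S hS
    rw [Measure.smul_apply, hρ, Measure.smul_apply, Measure.map_apply (meas_Phi w1) hS,
      Measure.restrict_apply (meas_Phi w1 hS), h.iter_apply n hS, smul_eq_mul, smul_eq_mul]
    calc 2 * (c * μ (Phi R w1 ⁻¹' S ∩ E)) ≤ 2 * (c * μ (Phi R w1 ⁻¹' S)) := by
          gcongr
          exact Set.inter_subset_left
      _ = c * μ (Phi R w1 ⁻¹' S) + c * μ (Phi R w2 ⁻¹' S) := by rw [← hPhi, two_mul]
      _ = ∑ w ∈ {w1, w2}, c * μ (Phi R w ⁻¹' S) := by rw [Finset.sum_pair hne]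
      _ ≤ ∑ w ∈ Wd B n, c * μ (Phi R w ⁻¹' S) := by
          apply Finset.sum_le_sum_of_subset
          intro w hw
          simp only [Finset.mem_insert, Finset.mem_singleton] at hw
          rcases hw with rfl | rfl
          · exact hw1
          · exact hw2
  have hmass : ρ Set.univ = μ F := by
    have e1 : μ F = (μ.restrict F) Set.univ := by
      rw [Measure.restrict_apply MeasurableSet.univ, Set.univ_inter]
    rw [e1, hrest, hρ]
    simp only [Measure.smul_apply, smul_eq_mul]
    rw [Measure.map_apply (meas_Phi w1) MeasurableSet.univ,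
      Measure.map_apply (meas_Phi ws) MeasurableSet.univ, Set.preimage_univ, Set.preimage_univ]
  have hco : ∀ l : Fin d → ℝ, ‖∫ x in F, (starRingEnd ℂ) (ex l x) ∂μ‖ =
      ‖∫ x, (starRingEnd ℂ) (ex l x) ∂ρ‖ := by
    intro l
    have hcex : Continuous (fun x => (starRingEnd ℂ) (ex l x)) :=
      Complex.continuous_conj.comp (continuous_ex l)
    rw [hrest, hρ, integral_smul_measure, integral_smul_measure,
      integral_map (meas_Phi ws).aemeasurable hcex.aestronglyMeasurable,
      integral_map (meas_Phi w1).aemeasurable hcex.aestronglyMeasurable, norm_smul, norm_smul]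
    congr 1
    have e1 : ∀ x, (starRingEnd ℂ) (ex l (Phi R w1 x)) = (starRingEnd ℂ) (ex l (Phi R ws x)) *
        (starRingEnd ℂ) (ex l ((Ai R ^ n) *ᵥ (io (bet R w1) - io (bet R ws)))) := by
      intro x
      rw [← map_mul, ← ex_add]
      congr 2
      rw [Phi_eq R h.unit, Phi_eq R h.unit, length_of_mem hw1, length_of_mem hws,
        ← Matrix.mulVec_add]
      congr 1
      abel
    simp_rw [e1]
    rw [integral_mul_const, norm_mul]
    have e2 : ‖(starRingEnd ℂ) (ex l ((Ai R ^ n) *ᵥ (io (bet R w1) - io (bet R ws))))‖ = 1 := by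
      rw [RCLike.norm_conj, norm_ex]
    rw [e2, mul_one]
  have hzero := uniform hs hFm h2ρ hmass hco
  have e1 : μ F = (μ.restrict F) Set.univ := by
    rw [Measure.restrict_apply MeasurableSet.univ, Set.univ_inter]
  rw [e1, hrest, Measure.smul_apply, Measure.map_apply (meas_Phi ws) MeasurableSet.univ,
    Set.preimage_univ, Measure.restrict_apply MeasurableSet.univ, Set.univ_inter, smul_eq_mul,
    mul_eq_zero] at hzero
  rcases hzero with hz | hz
  · exact hcpos hz
  · exact hEpos.ne' hz

end Sys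

end Pool.Agent.Helper540_Overlap
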