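import Pool.Agent.Helper540_Overlap.A5

set_option autoImplicit false
open MeasureTheory Matrix Filter Topology
open scoped ENNReal InnerProductSpace

namespace Pool.Agent.Helper540_Overlap

variable {d : ℕ}

namespace Sys

variable {R : Matrix (Fin d) (Fin d) ℤ} {B : Finset (Fin d → ℤ)}
    {μ : Measure (Fin d → ℝ)} {T : Set (Fin d → ℝ)}

/-- lattice vectors by which the attractor meets its translate -/
def Vs (T : Set (Fin d → ℝ)) : Set (Fin d → ℤ) := {v | ∃ x ∈ T, ∃ y ∈ T, x = y + io v}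

lemma Vs_finite (h : Sys R B μ T) : (Vs T).Finite := by
  obtain ⟨C, hC⟩ := h.cpt.isBounded.exists_norm_le
  apply Set.Finite.subset (Set.finite_Icc (fun _ : Fin d => -⌈2 * C⌉) (fun _ => ⌈2 * C⌉))
  rintro v ⟨x, hx, y, hy, he⟩
  have hv : ∀ i, |(v i : ℝ)| ≤ 2 * C := by
    intro i
    have h1 : (v i : ℝ) = x i - y i := by
      rw [he]; simp [io]
    rw [h1]
    have h2 : |x i| ≤ C := (norm_le_pi_norm x i).trans (hC x hx)
    have h3 : |y i| ≤ C := (norm_le_pi_norm y i).trans (hC y hy)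
    calc |x i - y i| ≤ |x i| + |y i| := abs_sub _ _
      _ ≤ 2 * C := by linarith
  constructor
  · intro i
    have h1 := (abs_le.1 (hv i)).1
    have h2 : (2 * C) ≤ ⌈2 * C⌉ := Int.le_ceil _
    have h3 : (-(⌈2 * C⌉ : ℤ) : ℝ) ≤ v i := by linarith
    exact_mod_cast h3
  · intro i
    have h1 := (abs_le.1 (hv i)).2
    have h2 : (2 * C) ≤ ⌈2 * C⌉ := Int.le_ceil _
    have h3 : (v i : ℝ) ≤ (⌈2 * C⌉ : ℤ) := by linarith
    exact_mod_cast h3

open Classical in
/-- neighbour types of a word -/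
noncomputable def Nb (R : Matrix (Fin d) (Fin d) ℤ) (B : Finset (Fin d → ℤ))
    (V : Finset (Fin d → ℤ)) (w : List (Fin d → ℤ)) : Finset (Fin d → ℤ) :=
  V.filter (fun v => ∃ w' ∈ Wd B w.length, bet R w' = bet R w + v)

/-- a word with separated copies -/
lemma exists_sep (h : Sys R B μ T) (hs : IsSpec μ) :
    ∃ (m : ℕ) (w0 : List (Fin d → ℤ)), w0 ∈ Wd B m ∧
      ∀ (k : ℕ) (u u' w' : List (Fin d → ℤ)), u ∈ Wd B k → u' ∈ Wd B k → w' ∈ Wd B m → u ≠ u' →
        ∀ x ∈ T, ∀ y ∈ T, Phi R (u ++ w0) x ≠ Phi R (u' ++ w') y := by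
  classical
  set V : Finset (Fin d → ℤ) := h.Vs_finite.toFinset with hV
  set S : Finset ℕ := (Finset.range (V.card + 1)).filter
    (fun k => ∃ n, ∃ w ∈ Wd B n, (Nb R B V w).card = k) with hS
  have hmemS : ∀ n, ∀ w ∈ Wd B n, (Nb R B V w).card ∈ S := by
    intro n w hw
    rw [hS, Finset.mem_filter, Finset.mem_range]
    refine ⟨Nat.lt_succ_of_le (Finset.card_le_card (Finset.filter_subset _ _)), n, w, hw, rfl⟩
  have hne : S.Nonempty := ⟨_, hmemS 0 [] (by simp [Wd])⟩
  obtain ⟨-, m, w0, hw0, hcard⟩ := Finset.mem_filter.1 (S.max'_mem hne)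
  have hle : ∀ n, ∀ w ∈ Wd B n, (Nb R B V w).card ≤ (Nb R B V w0).card := by
    intro n w hw
    rw [hcard]
    exact S.le_max' _ (hmemS n w hw)
  have hNb : ∀ k, ∀ u ∈ Wd B k, Nb R B V (u ++ w0) = Nb R B V w0 := by
    intro k u hu
    symm
    apply Finset.eq_of_subset_of_card_le _ (hle _ _ (append_mem_Wd hu hw0))
    intro v hv
    rw [Nb, Finset.mem_filter] at hv ⊢
    obtain ⟨hvV, w', hw', he⟩ := hv
    refine ⟨hvV, u ++ w', ?_, ?_⟩
    · rw [List.length_append]
      rw [length_of_mem hu]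
      exact append_mem_Wd hu hw'
    · rw [bet_append, bet_append, he, length_of_mem hw']
      abel
  refine ⟨m, w0, hw0, ?_⟩
  intro k u u' w' hu hu' hw' huu x hx y hy heq
  have hl : (u ++ w0).length = (u' ++ w').length := by
    rw [List.length_append, List.length_append, length_of_mem hu, length_of_mem hu',
      length_of_mem hw0, length_of_mem hw']
  rw [Phi_inj_iff R h.unit _ _ hl] at heq
  set v : Fin d → ℤ := bet R (u' ++ w') - bet R (u ++ w0) with hv
  have hvV : v ∈ V := by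
    rw [hV, Set.Finite.mem_toFinset]
    refine ⟨x, hx, y, hy, ?_⟩
    rw [hv, io_sub, ← add_sub_assoc, ← heq, add_sub_cancel_right]
  have hvN : v ∈ Nb R B V (u ++ w0) := by
    rw [Nb, Finset.mem_filter]
    refine ⟨hvV, u' ++ w', ?_, ?_⟩
    · rw [hl, List.length_append, length_of_mem hu', length_of_mem hw']
      exact append_mem_Wd hu' hw'
    · rw [hv]; abel
  rw [hNb k u hu, Nb, Finset.mem_filter] at hvN
  obtain ⟨-, w'', hw'', he⟩ := hvN
  rw [length_of_mem hw0] at hw''
  have h1 : bet R (u ++ w'') = bet R (u' ++ w') := by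
    rw [bet_append, he, length_of_mem hw'']
    have h2 : bet R (u ++ w0) = bet R w0 + R ^ m *ᵥ bet R u := by
      rw [bet_append, length_of_mem hw0]
    have h3 : bet R (u' ++ w') = bet R (u ++ w0) + v := by rw [hv]; abel
    rw [h3, h2]
    abel
  have h2 := h.no_exact hs (k + m) _ _ (append_mem_Wd hu hw'') (append_mem_Wd hu' hw') h1
  have h3 := List.append_inj_left h2 (by rw [length_of_mem hu, length_of_mem hu'])
  exact huu h3

/-- the main estimate -/
lemma piece_zero (h : Sys R B μ T) (hs : IsSpec μ) (c : Fin d → ℤ) (hc : c ∈ B)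
    (b : Fin d → ℤ) (hb : b ∈ B) (hbc : b ≠ c) : μ (phi R b ⁻¹' (phi R c '' T)) = 0 := by
  classical
  have := h.prob
  obtain ⟨m, w0, hw0, hsep⟩ := h.exists_sep hs
  set cm : ℝ≥0∞ := ((B.card : ENNReal)⁻¹) ^ m with hcm
  have hcpos : cm ≠ 0 := by
    rw [hcm]
    exact (ENNReal.pow_pos (ENNReal.inv_pos.2 (ENNReal.natCast_ne_top _)) m).ne'
  set q : ℝ≥0∞ := ∑ _w ∈ (Wd B m).erase w0, cm with hq
  have hq1 : q + cm = 1 := by
    rw [← h.sum_weights m, ← Finset.sum_erase_add _ _ hw0]
  have hqlt : q < 1 := by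
    rw [← hq1]
    apply ENNReal.lt_add_right _ hcpos
    intro htop
    rw [htop] at hq1
    simp at hq1
  have hmeas : MeasurableSet (phi R c '' T) := by
    have : IsCompact (phi R c '' T) := h.cpt.image (continuous_Phi R [c])
    exact this.isClosed.measurableSet
  have key : ∀ k : ℕ, ∀ n : ℕ, ∀ u : List (Fin d → ℤ), ∀ b' ∈ B, b' ≠ c → u ∈ Wd B n →
      μ (Phi R (b' :: u) ⁻¹' (phi R c '' T)) ≤ q ^ k := by
    intro k
    induction k with
    | zero => intro n u b' _ _ _; rw [pow_zero]; exact prob_le_one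
    | succ k ih =>
      intro n u b' hb' hne hu
      rw [h.iter_apply m (meas_Phi _ hmeas)]
      rw [← Finset.sum_erase_add _ _ hw0]
      have hz : μ (Phi R w0 ⁻¹' (Phi R (b' :: u) ⁻¹' (phi R c '' T))) = 0 := by
        have h1 : Phi R w0 ⁻¹' (Phi R (b' :: u) ⁻¹' (phi R c '' T)) ⊆ Tᶜ := by
          intro x hx hxT
          rw [Set.mem_preimage, Set.mem_preimage, ← Phi_append] at hx
          obtain ⟨y, hy, he⟩ := hx
          rw [h.att_iter n] at hy
          simp only [Set.mem_iUnion, exists_prop] at hy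
          obtain ⟨v, hv, z, hz, rfl⟩ := hy
          rw [h.att_iter m] at hz
          simp only [Set.mem_iUnion, exists_prop] at hz
          obtain ⟨w', hw', z', hz', rfl⟩ := hz
          have hcB : Phi R ((b' :: u) ++ w0) x = Phi R ((c :: v) ++ w') z' := by
            rw [Phi_append R (c :: v)]
            exact he.symm
          exact hsep (n + 1) (b' :: u) (c :: v) w' (cons_mem_Wd hb' hu) (cons_mem_Wd hc hv) hw'
            (fun h => hne (List.cons.inj h).1) x hxT z' hz' hcB
        have h2 : μ Tᶜ = 0 := h.ae_mem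
        exact measure_mono_null h1 h2
      rw [hz, mul_zero, add_zero, pow_succ', hq, Finset.sum_mul]
      apply Finset.sum_le_sum
      intro w hw
      rw [Finset.mem_erase] at hw
      gcongr
      have h3 := ih (n + m) (u ++ w) b' hb' hne (append_mem_Wd hu hw.2)
      have h4 : Phi R w ⁻¹' (Phi R (b' :: u) ⁻¹' (phi R c '' T)) =
          Phi R (b' :: (u ++ w)) ⁻¹' (phi R c '' T) := by
        ext x
        rw [Set.mem_preimage, Set.mem_preimage, Set.mem_preimage, ← Phi_append, List.cons_append]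
      rw [h4]
      exact h3
  have hlim : Tendsto (fun k => q ^ k) atTop (𝓝 0) := ENNReal.tendsto_pow_atTop_nhds_zero_of_lt_one hqlt
  have h5 : μ (phi R b ⁻¹' (phi R c '' T)) ≤ 0 := by
    apply ge_of_tendsto' hlim
    intro k
    exact key k 0 [] b hb hbc (by simp [Wd])
  exact le_antisymm h5 zero_le

/-- **No overlap** -/
theorem no_overlap (h : Sys R B μ T) (hs : IsSpec μ) (b : Fin d → ℤ) (hb : b ∈ B)
    (c : Fin d → ℤ) (hc : c ∈ B) (hbc : b ≠ c) : μ (phi R b '' T ∩ phi R c '' T) = 0 := by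
  have hm : ∀ c, MeasurableSet (phi R c '' T) := by
    intro c
    have : IsCompact (phi R c '' T) := h.cpt.image (continuous_Phi R [c])
    exact this.isClosed.measurableSet
  have h1 : μ (phi R b '' T ∩ phi R c '' T) =
      ∑ b' ∈ B, ((B.card : ENNReal)⁻¹) * μ (phi R b' ⁻¹' (phi R b '' T ∩ phi R c '' T)) := by
    conv_lhs => rw [h.inv]
    rw [Measure.finsetSum_apply]
    refine Finset.sum_congr rfl fun w _ => ?_
    rw [Measure.smul_apply, Measure.map_apply (meas_phi w) ((hm b).inter (hm c)), smul_eq_mul]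
  rw [h1]
  apply Finset.sum_eq_zero
  intro b' hb'
  by_cases hb'c : b' = c
  · have h2 := h.piece_zero hs b hb b' hb' (by rw [hb'c]; exact hbc.symm)
    have h3 : μ (phi R b' ⁻¹' (phi R b '' T ∩ phi R c '' T)) = 0 :=
      measure_mono_null (Set.preimage_mono Set.inter_subset_left) h2
    rw [h3, mul_zero]
  · have h2 := h.piece_zero hs c hc b' hb' hb'c
    have h3 : μ (phi R b' ⁻¹' (phi R b '' T ∩ phi R c '' T)) = 0 :=
      measure_mono_null (Set.preimage_mono Set.inter_subset_right) h2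
    rw [h3, mul_zero]

end Sys

end Pool.Agent.Helper540_Overlap
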